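import Mathlib
import Pool.Agent.Helper625.M8
import Pool.Agent.Helper625.N6

/-!
# The true order of the second primitive of Hardy's function is `T`

`G(T) = ∫_0^T ∫_0^t Z(u) du dt`.  We show `G(T) = O(T)` and `G(T) = Ω_-(T)`: the true order of
growth of `G` is `T`, not `T^{3/4}`.

Idea of the proof.  Lower bound: the Abel mean `∫_0^∞ Z(t) exp(-η t) dt` converges, as `η → 0+`,
to a negative constant; it is computed from the completed zeta function through the Laplace kernel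
`Φ(t) = ∫_0^{π/4} δ^{-1/4} t sinh((π/4-δ)t) dδ`, the flatness of the theta function at the cusp, and
Parseval's formula for `ζ(s)/s` on the critical line.  Upper bound: the ramp `max(T-t,0)` is written
as an absolutely convergent inverse Laplace integral over `Re p = 1/T`, and the Laplace transform of
`Λ(1/2+it) Φ(t)` is bounded by means of the modular transformation of the theta function near the
cusp and Cauchy's estimate.
-/

namespace Pool.Agent.Results.MP_6f2ed2_nt.TrueOrder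

open MeasureTheory Filter Topology Asymptotics

/-- The unimodular factor `e^{iθ(t)} = π^{-it/2} Γ(1/4+it/2) / |Γ(1/4+it/2)|`. -/
noncomputable def phase (t : ℝ) : ℂ :=
  (Real.pi : ℂ) ^ (-(Complex.I * (t : ℂ) / 2)) * Complex.Gamma (1 / 4 + Complex.I * (t : ℂ) / 2) /
    ((‖Complex.Gamma (1 / 4 + Complex.I * (t : ℂ) / 2)‖ : ℝ) : ℂ)

/-- Hardy's function `Z(t) = e^{iθ(t)} ζ(1/2+it)`, as a real number. -/
noncomputable def hardyZ (t : ℝ) : ℝ :=
  (phase t * riemannZeta (1 / 2 + Complex.I * (t : ℂ))).re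

/-- `F(T) = ∫_0^T Z(t) dt`. -/
noncomputable def F (T : ℝ) : ℝ := ∫ t in (0:ℝ)..T, hardyZ t

/-- `G(T) = ∫_0^T F(t) dt`. -/
noncomputable def G (T : ℝ) : ℝ := ∫ t in (0:ℝ)..T, F t

open Pool.Agent.Helper625

lemma cl_eq (t : ℝ) : ZF.cl t = 1 / 2 + Complex.I * (t : ℂ) := by
  unfold ZF.cl; push_cast; ring

lemma arg_eq (t : ℝ) : (((1 / 4 : ℝ) : ℂ) + ((t / 2 : ℝ) : ℂ) * Complex.I) = 1 / 4 + Complex.I * (t : ℂ) / 2 := by
  push_cast; ring

lemma phase_zeta (t : ℝ) : phase t * riemannZeta (1 / 2 + Complex.I * (t : ℂ)) = ((M8.Zr t : ℝ) : ℂ) := by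
  have hL := Th.Lc_eq t
  rw [M1.Lc_real, arg_eq, cl_eq] at hL
  have hg : Gam.g t = ‖Complex.Gamma (1 / 4 + Complex.I * (t : ℂ) / 2)‖ := by
    unfold Gam.g; rw [arg_eq]
  have hg0 : ((Gam.g t : ℝ) : ℂ) ≠ 0 := by
    exact_mod_cast (Gam.g_pos t).ne'
  unfold M8.Zr phase
  rw [← hg]
  push_cast
  rw [hL]
  have hpi : (Real.pi : ℂ) ≠ 0 := by exact_mod_cast Real.pi_ne_zero
  have e1 : (Real.pi : ℂ) ^ (-(1 / 2 + Complex.I * (t : ℂ)) / 2) =
      (Real.pi : ℂ) ^ (-(1/4) : ℂ) * (Real.pi : ℂ) ^ (-(Complex.I * (t : ℂ) / 2)) := by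
    rw [← Complex.cpow_add _ _ hpi]; congr 1; ring
  have e2 : ((Real.pi ^ (1/4 : ℝ) : ℝ) : ℂ) = (Real.pi : ℂ) ^ ((1/4 : ℂ)) := by
    rw [Complex.ofReal_cpow Real.pi_pos.le]; push_cast; rfl
  have e3 : (Real.pi : ℂ) ^ ((1/4 : ℂ)) * (Real.pi : ℂ) ^ (-(1/4) : ℂ) = 1 := by
    rw [← Complex.cpow_add _ _ hpi]; simp
  rw [e2, e1]
  linear_combination (-(Real.pi : ℂ) ^ (-(Complex.I * (t : ℂ) / 2)) * Complex.Gamma (1 / 4 + Complex.I * (t : ℂ) / 2) *
    riemannZeta (1 / 2 + Complex.I * (t : ℂ)) / ((Gam.g t : ℝ) : ℂ)) * e3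

lemma hardyZ_eq (t : ℝ) : hardyZ t = M8.Zr t := by
  unfold hardyZ; rw [phase_zeta, Complex.ofReal_re]

lemma F_eq (T : ℝ) : F T = M8.Fz T := by
  unfold F M8.Fz
  simp only [hardyZ_eq]

lemma G_eq (T : ℝ) : G T = M8.Gz T := by
  unfold G M8.Gz
  simp only [F_eq]

/-- **Main theorem.**  `Z` is real; `G(T) = O(T)`; and there is `c > 0` such that
`G(T) ≤ -c T` for arbitrarily large `T`. -/
theorem result :
    (∀ t : ℝ, ((hardyZ t : ℝ) : ℂ) = phase t * riemannZeta (1 / 2 + Complex.I * (t : ℂ))) ∧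
    (∃ K : ℝ, ∃ T₁ : ℝ, ∀ T : ℝ, T₁ ≤ T → |G T| ≤ K * T) ∧
    (∃ c : ℝ, 0 < c ∧ ∀ T₀ : ℝ, ∃ T : ℝ, T₀ ≤ T ∧ G T ≤ -c * T) := by
  refine ⟨fun t => by rw [phase_zeta, hardyZ_eq], ⟨N6.K3, 16 / Real.pi, ?_⟩, ⟨0.06, by norm_num, ?_⟩⟩
  · intro T hT
    rw [G_eq]
    exact N6.Gz_linear hT
  · intro T₀
    obtain ⟨T, h1, h2⟩ := M8.G_omega (c := 0.06) (by have := M8.C0_neg; norm_num at this ⊢; linarith) T₀
    exact ⟨T, h1, by rw [G_eq]; exact h2⟩

end Pool.Agent.Results.MP_6f2ed2_nt.TrueOrder
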